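import Pool.Agent.Helper23.CC.Spec

/-!
CHAIN: columns for several blocks of polynomials of bounded degree and one block of residues.
-/

set_option autoImplicit false

namespace Pool.Agent.Helper75.CC

open Pool.Agent.Helper23.CC

section Abstract

variable {K M : Type} [Field K] [AddCommGroup M] [Module K M] (T : M →ₗ[K] M) (W : Submodule K M)

/-- The span of the columns, of their images, and of `W`. -/
def Sp (L : List M) : Submodule K M :=
  Submodule.span K {x | x ∈ L} ⊔ Submodule.span K (T '' {x | x ∈ L}) ⊔ W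

/-- The list `b p, b (p + 2), …` of length `e`. -/
def run (b : ℕ → M) (p e : ℕ) : List M := (List.range e).map fun i => b (p + 2 * i)

omit [AddCommGroup M] in
theorem run_length (b : ℕ → M) (p e : ℕ) : (run b p e).length = e := by simp [run]

omit [AddCommGroup M] in
theorem run_forall (b : ℕ → M) (p e : ℕ) (q : M → Prop) (h : ∀ i < e, q (b (p + 2 * i))) :
    ∀ c ∈ run b p e, q c := by
  intro c hc
  simp only [run, List.mem_map, List.mem_range] at hc
  obtain ⟨i, hi, rfl⟩ := hc
  exact h i hi

theorem mem_Sp {L : List M} {c : M} (hc : c ∈ L) : c ∈ Sp T W L :=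
  Submodule.mem_sup_left (Submodule.mem_sup_left (Submodule.subset_span hc))

theorem T_mem_Sp {L : List M} {c : M} (hc : c ∈ L) : T c ∈ Sp T W L :=
  Submodule.mem_sup_left (Submodule.mem_sup_right (Submodule.subset_span ⟨c, hc, rfl⟩))

theorem Sp_mono {L L' : List M} (h : ∀ c ∈ L, c ∈ L') : Sp T W L ≤ Sp T W L' := by
  refine sup_le_sup_right (sup_le_sup (Submodule.span_mono fun c hc => h c hc)
    (Submodule.span_mono ?_)) _
  rintro _ ⟨c, hc, rfl⟩
  exact ⟨c, h c hc, rfl⟩

theorem W_le_Sp (L : List M) : W ≤ Sp T W L := le_sup_right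

theorem run_mem (b : ℕ → M) (hb : ∀ i, T (b i) = b (i + 1)) (p e : ℕ) (L : List M)
    (h : ∀ c ∈ run b p e, c ∈ L) (j : ℕ) (h1 : p ≤ j) (h2 : j < p + 2 * e) : b j ∈ Sp T W L := by
  obtain ⟨i, hi | hi⟩ : ∃ i, j = p + 2 * i ∨ j = p + 2 * i + 1 :=
    ⟨(j - p) / 2, by omega⟩
  · subst hi
    refine mem_Sp T W (h _ ?_)
    simp only [run, List.mem_map, List.mem_range]
    exact ⟨i, by omega, rfl⟩
  · subst hi
    rw [← hb]
    refine T_mem_Sp T W (h _ ?_)
    simp only [run, List.mem_map, List.mem_range]
    exact ⟨i, by omega, rfl⟩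

/-- The statement `E`. -/
def E (U V : Set M) (n : ℕ) : Prop :=
  ∃ L : List M, L.length = n ∧ (∀ c ∈ L, c ∈ U) ∧ ∀ v ∈ V, v ∈ Sp T W L

/-- The statement `E'`. -/
def E' (U V : Set M) (n : ℕ) : Prop :=
  ∃ A0 ∈ U, ∃ L : List M, L.length = n ∧ (∀ c ∈ L, c ∈ U) ∧
    ∀ v ∈ V, v ∈ Submodule.span K {A0} ⊔ Sp T W L

variable {T W}

theorem step {U V U' V' : Set M} (b : ℕ → M) (hb : ∀ i, T (b i) = b (i + 1)) (d : ℕ) (hd : 1 ≤ d)
    (hTU : ∀ u ∈ U, T u ∈ V) (hU : U ⊆ U') (hbU : ∀ i < d, b i ∈ U')
    (hbU2 : ∀ i < d, ∀ u ∈ U, b i + u ∈ U')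
    (hV' : ∀ S : Submodule K M, (∀ v ∈ V, v ∈ S) → (∀ i ≤ d, b i ∈ S) → ∀ v ∈ V', v ∈ S) (tot : ℕ)
    (hM : ∀ N, (tot ≤ 2 * N → E T W U V N) ∧ (tot ≤ 2 * N + 1 → E' T W U V N)) (N : ℕ) :
    (d + 1 + tot ≤ 2 * N → E T W U' V' N) ∧ (d + 1 + tot ≤ 2 * N + 1 → E' T W U' V' N) := by
  constructor
  · intro hN
    obtain ⟨e, he | he⟩ : ∃ e, d = 2 * e + 1 ∨ d = 2 * e := ⟨d / 2, by omega⟩
    · obtain ⟨L, hL, hLU, hLV⟩ := (hM (N - (e + 1))).1 (by omega)
      refine ⟨run b 0 (e + 1) ++ L, ?_, ?_, ?_⟩
      · rw [List.length_append, run_length]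
        omega
      · intro c hc
        rw [List.mem_append] at hc
        rcases hc with hc | hc
        · exact run_forall b 0 (e + 1) _ (fun i hi => hbU _ (by omega)) c hc
        · exact hU (hLU c hc)
      · refine hV' _ ?_ ?_
        · intro v hv
          exact Sp_mono T W (fun c hc => List.mem_append_right _ hc) (hLV v hv)
        · intro i hi
          exact run_mem T W b hb 0 (e + 1) _ (fun c hc => List.mem_append_left _ hc) i
            (by omega) (by omega)
    · obtain ⟨A0, hA0, L, hL, hLU, hLV⟩ := (hM (N - (e + 1))).2 (by omega)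
      set L' := run b 0 e ++ ((b (2 * e - 1) + A0) :: L) with hL'
      have hmem : b (2 * e - 1) + A0 ∈ L' := by simp [hL']
      have hbs : ∀ i < 2 * e, b i ∈ Sp T W L' := fun i hi =>
        run_mem T W b hb 0 e _ (fun c hc => List.mem_append_left _ hc) i (by omega) (by omega)
      have hA0S : A0 ∈ Sp T W L' := by
        have h1 := Submodule.sub_mem _ (mem_Sp T W hmem) (hbs (2 * e - 1) (by omega))
        rwa [add_sub_cancel_left] at h1
      have hVS : ∀ v ∈ V, v ∈ Sp T W L' := by
        intro v hv
        refine (sup_le ?_ ?_ : Submodule.span K {A0} ⊔ Sp T W L ≤ Sp T W L') (hLV v hv)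
        · rw [Submodule.span_singleton_le_iff_mem]
          exact hA0S
        · exact Sp_mono T W (fun c hc => List.mem_append_right _ (List.mem_cons_of_mem _ hc))
      refine ⟨L', ?_, ?_, ?_⟩
      · rw [hL', List.length_append, run_length, List.length_cons]
        omega
      · intro c hc
        rw [hL', List.mem_append, List.mem_cons] at hc
        rcases hc with hc | hc | hc
        · exact run_forall b 0 e _ (fun i hi => hbU _ (by omega)) c hc
        · rw [hc]
          exact hbU2 _ (by omega) _ hA0
        · exact hU (hLU c hc)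
      · refine hV' _ hVS ?_
        intro i hi
        rcases Nat.lt_or_ge i (2 * e) with h | h
        · exact hbs i h
        · obtain rfl : i = 2 * e := by omega
          have h1 := Submodule.sub_mem _ (T_mem_Sp T W hmem) (hVS _ (hTU _ hA0))
          rw [map_add, add_sub_cancel_right, hb] at h1
          rwa [show 2 * e - 1 + 1 = 2 * e by omega] at h1
  · intro hN
    obtain ⟨e, he | he⟩ : ∃ e, d = 2 * e + 1 ∨ d = 2 * e := ⟨d / 2, by omega⟩
    · obtain ⟨A0, hA0, L, hL, hLU, hLV⟩ := (hM (N - (e + 1))).2 (by omega)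
      set L' := run b 1 e ++ ((b (2 * e) + A0) :: L) with hL'
      have hmem : b (2 * e) + A0 ∈ L' := by simp [hL']
      have hbs : ∀ i < 2 * e + 1, b i ∈ Submodule.span K {b 0} ⊔ Sp T W L' := by
        intro i hi
        rcases Nat.eq_zero_or_pos i with h | h
        · subst h
          exact Submodule.mem_sup_left (Submodule.mem_span_singleton_self _)
        · exact Submodule.mem_sup_right (run_mem T W b hb 1 e _
            (fun c hc => List.mem_append_left _ hc) i (by omega) (by omega))
      have hA0S : A0 ∈ Submodule.span K {b 0} ⊔ Sp T W L' := by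
        have h1 := Submodule.sub_mem _ (Submodule.mem_sup_right (S := Submodule.span K {b 0})
          (mem_Sp T W hmem)) (hbs (2 * e) (by omega))
        rwa [add_sub_cancel_left] at h1
      have hVS : ∀ v ∈ V, v ∈ Submodule.span K {b 0} ⊔ Sp T W L' := by
        intro v hv
        refine (sup_le ?_ ?_ : Submodule.span K {A0} ⊔ Sp T W L ≤ _) (hLV v hv)
        · rw [Submodule.span_singleton_le_iff_mem]
          exact hA0S
        · exact (Sp_mono T W (fun c hc =>
            List.mem_append_right _ (List.mem_cons_of_mem _ hc))).trans le_sup_right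
      refine ⟨b 0, hbU 0 (by omega), L', ?_, ?_, ?_⟩
      · rw [hL', List.length_append, run_length, List.length_cons]
        omega
      · intro c hc
        rw [hL', List.mem_append, List.mem_cons] at hc
        rcases hc with hc | hc | hc
        · exact run_forall b 1 e _ (fun i hi => hbU _ (by omega)) c hc
        · rw [hc]
          exact hbU2 _ (by omega) _ hA0
        · exact hU (hLU c hc)
      · refine hV' _ hVS ?_
        intro i hi
        rcases Nat.lt_or_ge i (2 * e + 1) with h | h
        · exact hbs i h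
        · obtain rfl : i = 2 * e + 1 := by omega
          have h1 := Submodule.sub_mem _ (Submodule.mem_sup_right (S := Submodule.span K {b 0})
            (T_mem_Sp T W hmem)) (hVS _ (hTU _ hA0))
          rwa [map_add, add_sub_cancel_right, hb] at h1
    · obtain ⟨L, hL, hLU, hLV⟩ := (hM (N - e)).1 (by omega)
      refine ⟨b 0, hbU 0 (by omega), run b 1 e ++ L, ?_, ?_, ?_⟩
      · rw [List.length_append, run_length]
        omega
      · intro c hc
        rw [List.mem_append] at hc
        rcases hc with hc | hc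
        · exact run_forall b 1 e _ (fun i hi => hbU _ (by omega)) c hc
        · exact hU (hLU c hc)
      · refine hV' _ ?_ ?_
        · intro v hv
          exact Submodule.mem_sup_right
            (Sp_mono T W (fun c hc => List.mem_append_right _ hc) (hLV v hv))
        · intro i hi
          rcases Nat.eq_zero_or_pos i with h | h
          · subst h
            exact Submodule.mem_sup_left (Submodule.mem_span_singleton_self _)
          · exact Submodule.mem_sup_right (run_mem T W b hb 1 e _
              (fun c hc => List.mem_append_left _ hc) i (by omega) (by omega))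

end Abstract

section Blocks

open Polynomial

variable {K : Type} [Field K] {A : Type} [DecidableEq A]

/-- Multiplication by `X`. -/
noncomputable def mulX (K A : Type) [Field K] : ((A → K[X]) × K[X]) →ₗ[K] ((A → K[X]) × K[X]) where
  toFun := fun m => (fun a => X * m.1 a, X * m.2)
  map_add' := fun m m' => by
    ext1
    · funext a
      simp [mul_add]
    · simp [mul_add]
  map_smul' := fun c m => by
    ext1
    · funext a
      simp
    · simp

/-- The multiples of `h` in the last block. -/
noncomputable def Wh (K A : Type) [Field K] (h : K[X]) : Submodule K ((A → K[X]) × K[X]) where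
  carrier := {m | m.1 = 0 ∧ h ∣ m.2}
  add_mem' := by
    rintro m m' ⟨h1, h2⟩ ⟨h3, h4⟩
    exact ⟨by simp [h1, h3], by simpa using dvd_add h2 h4⟩
  zero_mem' := ⟨rfl, by simp⟩
  smul_mem' := by
    rintro c m ⟨h1, h2⟩
    refine ⟨by simp [h1], ?_⟩
    rw [Prod.smul_snd, smul_eq_C_mul]
    exact h2.mul_left _

/-- The allowed columns. -/
def US (d : A → ℕ) (Z : Finset A) : Set ((A → K[X]) × K[X]) :=
  {m | (∀ a ∈ Z, (m.1 a).degree < d a) ∧ ∀ a, a ∉ Z → m.1 a = 0}

/-- The vectors that have to be spanned. -/
def VS (d : A → ℕ) (Z : Finset A) : Set ((A → K[X]) × K[X]) :=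
  {m | (∀ a ∈ Z, (m.1 a).natDegree ≤ d a) ∧ ∀ a, a ∉ Z → m.1 a = 0}

omit [DecidableEq A] in
theorem low_mem (S : Submodule K ((A → K[X]) × K[X])) (ι : K[X] →ₗ[K] ((A → K[X]) × K[X])) (n : ℕ)
    (h : ∀ i < n, ι (X ^ i) ∈ S) (p : K[X]) (hp : p.degree < n) : ι p ∈ S := by
  rcases eq_or_ne p 0 with h0 | h0
  · rw [h0, map_zero]
    exact Submodule.zero_mem _
  rw [p.as_sum_range' n ((natDegree_lt_iff_degree_lt h0).2 hp), map_sum]
  refine Submodule.sum_mem _ fun i hi => ?_
  rw [← C_mul_X_pow_eq_monomial, ← smul_eq_C_mul, map_smul]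
  exact Submodule.smul_mem _ _ (h i (Finset.mem_range.1 hi))

theorem base (d : A → ℕ) (h : K[X]) (hh : h.Monic) (N : ℕ) :
    (h.natDegree ≤ 2 * N → E (mulX K A) (Wh K A h) (US d ∅) (VS d ∅) N) ∧
    (h.natDegree ≤ 2 * N + 1 → E' (mulX K A) (Wh K A h) (US d ∅) (VS d ∅) N) := by
  set b : ℕ → (A → K[X]) × K[X] := fun i => (0, X ^ i) with hb
  have hTb : ∀ i, mulX K A (b i) = b (i + 1) := by
    intro i
    simp only [hb, mulX, LinearMap.coe_mk, AddHom.coe_mk, pow_succ']
    ext1
    · funext a
      simp
    · rfl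
  have hV : ∀ S : Submodule K ((A → K[X]) × K[X]), Wh K A h ≤ S →
      (∀ i < h.natDegree, b i ∈ S) → ∀ v ∈ VS (K := K) d ∅, v ∈ S := by
    intro S hW hi v hv
    have hv1 : v.1 = 0 := by
      funext a
      exact hv.2 a (by simp)
    have : v = LinearMap.inr K (A → K[X]) K[X] (v.2 %ₘ h) + (0, h * (v.2 /ₘ h)) := by
      ext1
      · simp [hv1]
      · simp [modByMonic_add_div]
    rw [this]
    refine Submodule.add_mem _ ?_ (hW ⟨rfl, dvd_mul_right _ _⟩)
    refine low_mem S _ h.natDegree (fun i hi' => ?_) _ ?_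
    · simpa [hb] using hi i hi'
    · refine (degree_modByMonic_lt _ hh).trans_le ?_
      exact degree_le_natDegree
  have hbU : ∀ i, b i ∈ US (K := K) d ∅ := fun i => ⟨by simp, by simp [hb]⟩
  constructor
  · intro hN
    refine ⟨run b 0 N, run_length _ _ _, run_forall _ _ _ _ fun i _ => hbU _, ?_⟩
    refine hV _ (W_le_Sp _ _ _) fun i hi => ?_
    exact run_mem _ _ b hTb 0 N _ (fun c hc => hc) i (by omega) (by omega)
  · intro hN
    refine ⟨b 0, hbU 0, run b 1 N, run_length _ _ _, run_forall _ _ _ _ fun i _ => hbU _, ?_⟩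
    refine hV _ ((W_le_Sp _ _ _).trans le_sup_right) fun i hi => ?_
    rcases Nat.eq_zero_or_pos i with h0 | h0
    · subst h0
      exact Submodule.mem_sup_left (Submodule.mem_span_singleton_self _)
    · exact Submodule.mem_sup_right (run_mem _ _ b hTb 1 N _ (fun c hc => hc) i
        (by omega) (by omega))

theorem all (d : A → ℕ) (hd : ∀ a, 1 ≤ d a) (h : K[X]) (hh : h.Monic) (Z : Finset A) :
    ∀ N, (∑ a ∈ Z, (d a + 1) + h.natDegree ≤ 2 * N →
      E (mulX K A) (Wh K A h) (US d Z) (VS d Z) N) ∧
    (∑ a ∈ Z, (d a + 1) + h.natDegree ≤ 2 * N + 1 →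
      E' (mulX K A) (Wh K A h) (US d Z) (VS d Z) N) := by
  induction Z using Finset.induction_on with
  | empty =>
    intro N
    simpa using base d h hh N
  | insert a Z ha ih =>
    intro N
    set b : ℕ → (A → K[X]) × K[X] := fun i => (Pi.single a (X ^ i), 0) with hb
    have hstep := step (T := mulX K A) (W := Wh K A h) (U := US d Z) (V := VS d Z)
      (U' := US d (insert a Z)) (V' := VS d (insert a Z)) b ?_ (d a) (hd a) ?_ ?_ ?_ ?_ ?_
      (∑ a ∈ Z, (d a + 1) + h.natDegree) ih N
    · rw [Finset.sum_insert ha, add_assoc]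
      exact hstep
    · intro i
      simp only [hb, mulX, LinearMap.coe_mk, AddHom.coe_mk]
      ext1
      · funext c
        by_cases hc : c = a
        · subst hc
          simp [pow_succ']
        · simp [Pi.single_eq_of_ne hc]
      · simp
    · rintro u ⟨hu1, hu2⟩
      refine ⟨fun c hc => ?_, fun c hc => ?_⟩
      · simp only [mulX, LinearMap.coe_mk, AddHom.coe_mk]
        rcases eq_or_ne (u.1 c) 0 with h0 | h0
        · simp [h0]
        · have h1 := (natDegree_lt_iff_degree_lt h0).2 (hu1 c hc)
          have h2 := natDegree_mul_le (p := X) (q := u.1 c)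
          rw [natDegree_X] at h2
          omega
      · simp [mulX, hu2 c hc]
    · rintro u ⟨hu1, hu2⟩
      refine ⟨fun c hc => ?_, fun c hc => ?_⟩
      · rcases Finset.mem_insert.1 hc with rfl | hc
        · rw [hu2 c ha, degree_zero]
          exact WithBot.bot_lt_coe _
        · exact hu1 c hc
      · exact hu2 c fun h => hc (Finset.mem_insert_of_mem h)
    · intro i hi
      refine ⟨fun c hc => ?_, fun c hc => ?_⟩
      · by_cases hca : c = a
        · subst hca
          simp only [hb, Pi.single_eq_same, degree_X_pow]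
          exact_mod_cast hi
        · simp only [hb, Pi.single_eq_of_ne hca, degree_zero]
          exact WithBot.bot_lt_coe _
      · have : c ≠ a := fun h => hc (h ▸ Finset.mem_insert_self _ _)
        simp only [hb, Pi.single_eq_of_ne this]
    · rintro i hi u ⟨hu1, hu2⟩
      refine ⟨fun c hc => ?_, fun c hc => ?_⟩
      · by_cases hca : c = a
        · subst hca
          simp only [hb, Prod.fst_add, Pi.add_apply, Pi.single_eq_same, hu2 c ha, add_zero,
            degree_X_pow]
          exact_mod_cast hi
        · simp only [hb, Prod.fst_add, Pi.add_apply, Pi.single_eq_of_ne hca, zero_add]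
          exact hu1 c ((Finset.mem_insert.1 hc).resolve_left hca)
      · have h1 : c ≠ a := fun h => hc (h ▸ Finset.mem_insert_self _ _)
        simp only [hb, Prod.fst_add, Pi.add_apply, Pi.single_eq_of_ne h1, zero_add]
        exact hu2 c fun h => hc (Finset.mem_insert_of_mem h)
    · rintro S hS hbS v ⟨hv1, hv2⟩
      have : v = (Function.update v.1 a 0, v.2) +
          (LinearMap.inl K (A → K[X]) K[X] ∘ₗ LinearMap.single K (fun _ : A => K[X]) a) (v.1 a) := by
        ext1
        · funext c
          by_cases hca : c = a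
          · subst hca
            simp
          · simp [hca]
        · simp
      rw [this]
      refine Submodule.add_mem _ (hS _ ⟨fun c hc => ?_, fun c hc => ?_⟩)
        (low_mem S _ (d a + 1) (fun i hi => ?_) _ ?_)
      · have h1 : c ≠ a := fun h => ha (h ▸ hc)
        simp only [Function.update_of_ne h1]
        exact hv1 c (Finset.mem_insert_of_mem hc)
      · by_cases hca : c = a
        · subst hca
          simp
        · simp only [Function.update_of_ne hca]
          exact hv2 c fun h => (Finset.mem_insert.1 h).elim hca hc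
      · exact hbS i (by omega)
      · have h1 := hv1 a (Finset.mem_insert_self _ _)
        refine (degree_le_of_natDegree_le h1).trans_lt ?_
        exact_mod_cast Nat.lt_succ_self _

end Blocks

open Polynomial in
theorem chain : St_CHAIN := by
  intro K _ A _ d Z h N hd hh hN
  obtain ⟨L, hL, hLU, hLV⟩ := (all d hd h hh Z N).1 hN
  subst hL
  refine ⟨fun a j => (L.get j).1 a, fun j => (L.get j).2, ?_, ?_⟩
  · intro a ha j
    exact (hLU _ (List.get_mem L j)).1 a ha
  · intro f f0 hf
    have hv : ((fun a => if a ∈ Z then f a else 0, f0) : (A → K[X]) × K[X]) ∈ VS (K := K) d Z := by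
      refine ⟨fun a ha => ?_, fun a ha => ?_⟩
      · simp only [if_pos ha]
        exact hf a ha
      · simp only [if_neg ha]
    have h1 := hLV _ hv
    obtain ⟨y, hy, w, hw, hyw⟩ := Submodule.mem_sup.1 h1
    obtain ⟨y1, hy1, y2, hy2, rfl⟩ := Submodule.mem_sup.1 hy
    have hr : {x | x ∈ L} = Set.range L.get := (Set.range_list_get L).symm
    rw [hr] at hy1
    rw [hr, ← Set.range_comp] at hy2
    obtain ⟨mu, hmu⟩ := (Submodule.mem_span_range_iff_exists_fun K).1 hy1
    obtain ⟨lam, hlam⟩ := (Submodule.mem_span_range_iff_exists_fun K).1 hy2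
    have key : ((fun a => if a ∈ Z then f a else 0, f0) : (A → K[X]) × K[X]) =
        ∑ j, (mu j • L.get j + lam j • mulX K A (L.get j)) + w := by
      rw [Finset.sum_add_distrib, hmu, ← hyw, ← hlam]
      rfl
    refine ⟨lam, mu, fun a ha => ?_, ?_⟩
    · have h2 := congrFun (congrArg Prod.fst key) a
      simp only [if_pos ha, Prod.fst_add, Prod.fst_sum, Pi.add_apply, Finset.sum_apply, hw.1,
        Pi.zero_apply, add_zero] at h2
      rw [h2]
      refine Finset.sum_congr rfl fun j _ => ?_
      simp only [mulX, LinearMap.coe_mk, AddHom.coe_mk, Prod.smul_fst, Pi.smul_apply,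
        smul_eq_C_mul]
      ring
    · have h2 := congrArg Prod.snd key
      simp only [Prod.snd_add, Prod.snd_sum] at h2
      have h3 : f0 - ∑ j, (C (lam j) * X + C (mu j)) * (L.get j).2 = w.2 := by
        rw [h2, sub_eq_iff_eq_add, add_comm]
        congr 1
        refine Finset.sum_congr rfl fun j _ => ?_
        simp only [mulX, LinearMap.coe_mk, AddHom.coe_mk, Prod.smul_snd, smul_eq_C_mul]
        ring
      rw [h3]
      exact hw.2

end Pool.Agent.Helper75.CC
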