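import Pool.Agent.Helper23.CC.Spec

/-!
RED: reduction of a contact line modulo the maximal ideal of a valuation ring.
-/

set_option autoImplicit false

namespace Pool.Agent.Helper75.CC

open Pool.Agent.Helper23.CC MvPolynomial

theorem sel {Ω : Type} [Field Ω] (O : ValuationSubring Ω) (u w : Ω) :
    ∃ (m : Ω) (u' w' : O), u = m * u' ∧ w = m * w' ∧ (u' = 1 ∨ w' = 1) := by
  by_cases hu : u = 0
  · exact ⟨w, 0, 1, by simp [hu], by simp, Or.inr rfl⟩
  by_cases hw : w = 0
  · exact ⟨u, 1, 0, by simp, by simp [hw], Or.inl rfl⟩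
  rcases O.mem_or_inv_mem (u / w) with h1 | h1
  · exact ⟨w, ⟨_, h1⟩, 1, by simp only; field_simp, by simp, Or.inr rfl⟩
  · exact ⟨u, 1, ⟨_, h1⟩, by simp, by simp only; field_simp, Or.inl rfl⟩

theorem coe_eval {Ω : Type} [Field Ω] (O : ValuationSubring Ω) {τ : Type} (p : τ → O)
    (G : MvPolynomial τ O) :
    ((eval p G : O) : Ω) = eval (fun l => (p l : Ω)) (map O.subtype G) := by
  rw [eval_map]
  exact eval₂_comp_left O.subtype (RingHom.id O) p G

theorem red (hN : St_NORM) : St_RED := by
  classical
  intro K Ω _ _ _ _ O n A σ _ _ _ Z own mult H F P Q al be hK hHF hind hab hline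
  obtain ⟨P', Q', i, j, a, b, c, e, hdet, hP', hQ', hPi, hPj, hQi, hQj, hPQ⟩ := hN Ω O n P Q hind
  -- the new linear forms
  have hsel : ∀ s, ∃ (m : Ω) (u' w' : O), al s * a + be s * b = m * u' ∧
      al s * c + be s * e = m * w' ∧ (u' = 1 ∨ w' = 1) := by
    intro s
    exact sel O _ _
  choose m u w hu hw huw using hsel
  -- the ring homomorphisms
  set κ : K →+* O := (algebraMap K Ω).codRestrict O.toSubring hK with hκ
  have hκc : ∀ x, ((κ x : O) : Ω) = algebraMap K Ω x := fun _ => rfl
  set π : O →+* IsLocalRing.ResidueField O := IsLocalRing.residue O with hπ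
  let alg : Algebra K (IsLocalRing.ResidueField O) := (π.comp κ).toAlgebra
  have halg : ∀ x, algebraMap K (IsLocalRing.ResidueField O) x = π (κ x) := fun _ => rfl
  -- lifts of the forms
  have hHO : ∀ t, ∃ G : MvPolynomial (Fin (n + 1)) O, map O.subtype G = H t := by
    intro t
    have : H t ∈ Set.range (map (σ := Fin (n + 1)) O.subtype) := by
      rw [mem_range_map_iff_coeffs_subset]
      intro y hy
      obtain ⟨I, hI, rfl⟩ := mem_coeffs_iff.1 hy
      have h1 := O.mem_of_valuation_le_one _ (hHF t I).le
      have h2 := O.add_mem _ _ h1 (hK (coeff I (F t)))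
      rw [sub_add_cancel] at h2
      exact ⟨⟨_, h2⟩, rfl⟩
    exact this
  choose G hG using hHO
  have hGF : ∀ t, map π (G t) = map (algebraMap K (IsLocalRing.ResidueField O)) (F t) := by
    intro t
    ext I
    rw [coeff_map, coeff_map, halg, ← sub_eq_zero, ← map_sub, IsLocalRing.residue_eq_zero_iff,
      O.valuation_lt_one_iff]
    have h1 := hHF t I
    rw [← hG t, coeff_map] at h1
    exact h1
  set PO : Fin (n + 1) → O := fun l => ⟨P' l, (hPQ l).1⟩ with hPO
  set QO : Fin (n + 1) → O := fun l => ⟨Q' l, (hPQ l).2⟩ with hQO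
  -- evaluation on the new line
  have hev : ∀ t, t ∉ Z → ∀ x y : O, ((eval (fun l => x * PO l + y * QO l) (G t) : O) : Ω) =
      (∏ s with own s = t, m s ^ mult s) *
        ((∏ s with own s = t, (u s * x + w s * y) ^ mult s : O) : Ω) := by
    intro t ht x y
    rw [coe_eval, hG]
    have h1 := hline t (a * x + c * y) (b * x + e * y)
    rw [if_neg ht] at h1
    have h2 : (fun l => (((x * PO l + y * QO l : O)) : Ω)) =
        fun l => (a * x + c * y) * P l + (b * x + e * y) * Q l := by
      funext l
      have h3 : (((x * PO l + y * QO l : O)) : Ω) = x * P' l + y * Q' l := rfl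
      rw [h3, hP', hQ']
      ring
    rw [h2, h1]
    have h4 : ((∏ s with own s = t, (u s * x + w s * y) ^ mult s : O) : Ω) =
        ∏ s with own s = t, ((u s : Ω) * x + w s * y) ^ mult s := by
      rw [← O.subtype_apply, map_prod]
      rfl
    rw [h4, ← Finset.prod_mul_distrib]
    refine Finset.prod_congr rfl fun s _ => ?_
    rw [← mul_pow]
    congr 1
    linear_combination (x : Ω) * hu s + (y : Ω) * hw s
  have hev0 : ∀ t, t ∈ Z → ∀ x y : O, eval (fun l => x * PO l + y * QO l) (G t) = 0 := by
    intro t ht x y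
    apply O.subtype_injective
    rw [map_zero, O.subtype_apply, coe_eval, hG]
    have h1 := hline t (a * x + c * y) (b * x + e * y)
    rw [if_pos ht] at h1
    have h2 : (fun l => (((x * PO l + y * QO l : O)) : Ω)) =
        fun l => (a * x + c * y) * P l + (b * x + e * y) * Q l := by
      funext l
      have h3 : (((x * PO l + y * QO l : O)) : Ω) = x * P' l + y * Q' l := rfl
      rw [h3, hP', hQ']
      ring
    rw [h2, h1]
  -- a point where all linear forms are units
  obtain ⟨t0, ht0⟩ : ∃ t0 : K, ∀ s, IsUnit (u s * 1 + w s * κ t0) := by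
    have hfin : (⋃ s, {t : K | π (u s) + π (w s) * π (κ t) = 0}).Finite := by
      refine Set.finite_iUnion fun s => Set.Subsingleton.finite ?_
      intro t1 h1 t2 h2
      change π (u s) + π (w s) * π (κ t1) = 0 at h1
      change π (u s) + π (w s) * π (κ t2) = 0 at h2
      have h3 : π (w s) * (π (κ t1) - π (κ t2)) = 0 := by linear_combination h1 - h2
      rcases mul_eq_zero.1 h3 with h4 | h4
      · rw [h4, zero_mul, add_zero] at h1
        rcases huw s with h5 | h5
        · rw [h5, map_one] at h1
          exact absurd h1 one_ne_zero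
        · rw [h5, map_one] at h4
          exact absurd h4 one_ne_zero
      · exact (π.comp κ).injective (sub_eq_zero.1 h4)
    obtain ⟨t0, ht0⟩ := hfin.infinite_compl.nonempty
    refine ⟨t0, fun s => ?_⟩
    by_contra hcon
    refine ht0 (Set.mem_iUnion.2 ⟨s, ?_⟩)
    have h1 : π (u s * 1 + w s * κ t0) = 0 := by
      rw [IsLocalRing.residue_eq_zero_iff]
      exact hcon
    simpa using h1
  -- the constants
  have hC : ∀ t, ∃ C : O, t ∉ Z → (C : Ω) = ∏ s with own s = t, m s ^ mult s := by
    intro t
    by_cases ht : t ∈ Z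
    · exact ⟨0, fun h => absurd ht h⟩
    have h1 := hev t ht 1 (κ t0)
    have h2 : IsUnit (∏ s with own s = t, (u s * 1 + w s * κ t0) ^ mult s : O) := by
      refine (Finset.prod_induction _ IsUnit (fun _ _ h h' => h.mul h') isUnit_one fun s _ => ?_)
      exact (ht0 s).pow _
    obtain ⟨v, hv⟩ := h2
    refine ⟨eval (fun l => 1 * PO l + κ t0 * QO l) (G t) * (↑v⁻¹ : O), fun _ => ?_⟩
    rw [← hv] at h1
    have h3 : ((v : O) : Ω) * ((↑v⁻¹ : O) : Ω) = 1 := by
      have := congrArg (fun z : O => (z : Ω)) v.mul_inv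
      exact this
    have h4 : ((eval (fun l => 1 * PO l + κ t0 * QO l) (G t) * (↑v⁻¹ : O) : O) : Ω) =
        (eval (fun l => 1 * PO l + κ t0 * QO l) (G t) : O) * ((↑v⁻¹ : O) : Ω) := rfl
    rw [h4, h1, mul_assoc, h3, mul_one]
  choose C hC using hC
  refine ⟨IsLocalRing.ResidueField O, inferInstance, alg, fun l => π (PO l), fun l => π (QO l), i, j,
    fun s => π (u s), fun s => π (w s), fun t => π (C t), ?_, ?_, ?_, ?_, ?_, ?_⟩
  · have : PO i = 1 := Subtype.ext hPi
    simp only [this, map_one]
  · have : PO j = 0 := Subtype.ext hPj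
    simp only [this, map_zero]
  · have : QO i = 0 := Subtype.ext hQi
    simp only [this, map_zero]
  · have : QO j = 1 := Subtype.ext hQj
    simp only [this, map_one]
  · intro s
    rcases huw s with h | h
    · exact Or.inl (by simp only [h, map_one])
    · exact Or.inr (by simp only [h, map_one])
  · intro t x y
    obtain ⟨x, rfl⟩ := IsLocalRing.residue_surjective x
    obtain ⟨y, rfl⟩ := IsLocalRing.residue_surjective y
    have h1 : aeval (fun l => IsLocalRing.residue O x * π (PO l) +
        IsLocalRing.residue O y * π (QO l)) (F t) =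
        π (eval (fun l => x * PO l + y * QO l) (G t)) := by
      have h2 : π (eval (fun l => x * PO l + y * QO l) (G t)) =
          eval₂ π (fun l => π (x * PO l + y * QO l)) (G t) :=
        eval₂_comp_left π (RingHom.id O) _ _
      rw [h2, ← eval_map, hGF, eval_map]
      simp only [map_add, map_mul]
      rfl
    rw [h1]
    by_cases ht : t ∈ Z
    · rw [if_pos ht, hev0 t ht, map_zero]
    · rw [if_neg ht]
      have h2 : eval (fun l => x * PO l + y * QO l) (G t) =
          C t * ∏ s with own s = t, (u s * x + w s * y) ^ mult s := by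
        apply O.subtype_injective
        rw [O.subtype_apply, hev t ht, map_mul, O.subtype_apply, O.subtype_apply, hC t ht]
      rw [h2, map_mul, map_prod]
      simp only [map_pow, map_add, map_mul]
      rfl

end Pool.Agent.Helper75.CC
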